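import Mathlib

set_option autoImplicit false

open Cardinal Ordinal Set

universe u

namespace Pool.Agent.Results.MP_ae46c1_lc.DominatingEqTwoPow

/-- `f ≤* g` for functions from `lam` to `lam`: the set of the points `a` with `g a < f a` has
cardinality less than `lam`. -/
def LeStar (lam : Cardinal.{u}) (f g : lam.ord.ToType → lam.ord.ToType) : Prop :=
  #{a : lam.ord.ToType | g a < f a} < lam

/-- `D` is a dominating family of functions from `lam` to `lam`. -/
def IsDominating (lam : Cardinal.{u}) (D : Set (lam.ord.ToType → lam.ord.ToType)) : Prop :=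
  ∀ f : lam.ord.ToType → lam.ord.ToType, ∃ g ∈ D, LeStar lam f g

/-- The dominating number of `lam`: the least cardinality of a dominating family. -/
noncomputable def dominatingNumber (lam : Cardinal.{u}) : Cardinal.{u} :=
  sInf {c | ∃ D : Set (lam.ord.ToType → lam.ord.ToType), IsDominating lam D ∧ #D = c}

/-- Choice of a preimage. -/
noncomputable def pre {I X : Type u} [Nonempty I] (s : I → X) (x : X) : I :=
  open Classical in if h : ∃ k, s k = x then h.choose else Classical.arbitrary I

theorem pre_apply {I X : Type u} [Nonempty I] {s : I → X} (hs : Function.Injective s) (k : I) :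
    pre s (s k) = k := by
  have h : ∃ k', s k' = s k := ⟨k, rfl⟩
  unfold pre
  rw [dif_pos h]
  exact hs h.choose_spec

theorem exists_le_mk_Iio {lam kap : Cardinal.{u}} (h : kap < lam) :
    ∃ x : lam.ord.ToType, kap ≤ #(Iio x) := by
  let f := Ordinal.principalSegToType (ord_lt_ord.2 h)
  refine ⟨f.top, ?_⟩
  have : #(kap.ord.ToType) ≤ #(Iio f.top) :=
    mk_le_of_injective (f := fun y => (⟨f y, f.lt_top y⟩ : Iio f.top)) (by
      intro a b hab
      exact f.injective (Subtype.ext_iff.1 hab))
  simpa using this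

/-- Core of the argument: a dominating family has at least `2 ^ lam` members. -/
theorem le_mk_of_isDominating {lam : Cardinal.{u}} (hl : lam.IsStrongLimit) (hs : lam.IsSingular)
    {D : Set (lam.ord.ToType → lam.ord.ToType)} (hD : IsDominating lam D) :
    2 ^ lam ≤ #D := by
  classical
  have hinf : ℵ₀ ≤ lam := hs.aleph0_le
  have hlt : ℵ₀ < lam := by
    refine lt_of_le_of_ne hinf ?_
    rintro rfl
    exact not_isSingular_aleph0 hs
  have hne : Nonempty lam.ord.ToType := by
    rw [← mk_ne_zero_iff, mk_ord_toType]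
    exact hl.ne_zero
  have : NoMaxOrder lam.ord.ToType := by
    refine ⟨fun a => ?_⟩
    by_contra hcon
    push Not at hcon
    have h1 : #(Iio a) < lam := mk_Iio_toType_ord_lt a
    obtain ⟨x, hx⟩ := exists_le_mk_Iio (lam := lam) (kap := #(Iio a) + 1)
      (add_lt_of_lt hinf h1 (one_lt_aleph0.trans_le hinf))
    have h2 : #(Iio x) ≤ #(Iio a) := mk_le_mk_of_subset (Iio_subset_Iio (hcon x))
    have h3 : lam ≤ #(Iio a) + 1 := by
      have : (Set.univ : Set lam.ord.ToType) ⊆ Iio a ∪ {a} := by
        intro y _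
        rcases lt_or_eq_of_le (hcon y) with h | h
        · exact Or.inl h
        · exact Or.inr h
      calc lam = #(lam.ord.ToType) := (mk_ord_toType lam).symm
        _ = #(Set.univ : Set lam.ord.ToType) := mk_univ.symm
        _ ≤ #(Iio a ∪ {a} : Set lam.ord.ToType) := mk_le_mk_of_subset this
        _ ≤ #(Iio a) + #({a} : Set lam.ord.ToType) := mk_union_le _ _
        _ = #(Iio a) + 1 := by simp
    exact absurd (add_lt_of_lt hinf h1 (one_lt_aleph0.trans_le hinf)) (not_lt.2 h3)
  obtain ⟨S, hS, hSc⟩ := Order.exists_cof_eq lam.ord.ToType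
  rw [Ordinal.cof_toType] at hSc
  have hmu : #S < lam := hSc ▸ hs.cof_ord_lt
  have hSne : Nonempty S := by
    obtain ⟨x⟩ := hne
    obtain ⟨y, hy, -⟩ := hS x
    exact ⟨⟨y, hy⟩⟩
  have hcof : ∀ x : lam.ord.ToType, ∃ k : S, x < (k : lam.ord.ToType) := by
    intro x
    obtain ⟨x', hx'⟩ := exists_gt x
    obtain ⟨y, hy, hxy⟩ := hS x'
    exact ⟨⟨y, hy⟩, hx'.trans_le hxy⟩
  -- the block sizes
  let th : S → Cardinal.{u} := fun i => 2 ^ (max (#(Iio (i : lam.ord.ToType))) (max (#S) ℵ₀))
  have hexp : ∀ i : S, max (#(Iio (i : lam.ord.ToType))) (max (#S) ℵ₀) < lam := fun i =>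
    max_lt (mk_Iio_toType_ord_lt _) (max_lt hmu hlt)
  have hth : ∀ i, th i < lam := fun i => hl.isStrongPrelimit (hexp i)
  have hthpow : ∀ i, th i ^ #S = th i := by
    intro i
    show (2 ^ (max (#(Iio (i : lam.ord.ToType))) (max (#S) ℵ₀))) ^ #S = _
    rw [← power_mul]
    congr 1
    exact mul_eq_left ((le_max_right _ _).trans (le_max_right _ _))
      ((le_max_left _ _).trans (le_max_right _ _)) (mk_ne_zero_iff.2 hSne)
  have hSth : ∀ i, #S ≤ th i := fun i =>
    ((le_max_left _ _).trans (le_max_right _ _)).trans (cantor _).le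
  have h0th : ∀ i, ℵ₀ ≤ th i := fun i =>
    ((le_max_right _ _).trans (le_max_right _ _)).trans (cantor _).le
  have hsup : ∀ kap : Cardinal.{u}, kap < lam → ∃ i, kap < th i := by
    intro kap hk
    obtain ⟨x, hx⟩ := exists_le_mk_Iio hk
    obtain ⟨i, hi⟩ := hcof x
    refine ⟨i, lt_of_le_of_lt ?_ (cantor _)⟩
    exact hx.trans ((mk_le_mk_of_subset (Iio_subset_Iio hi.le)).trans (le_max_left _ _))
  -- the product of the block sizes is `2 ^ lam`
  have hprod : 2 ^ lam ≤ #(∀ i : S, (th i).out) := by
    have h1 : lam ≤ Cardinal.sum (fun i : S => #(Iio (i : lam.ord.ToType))) := by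
      have : (Set.univ : Set lam.ord.ToType) ⊆ ⋃ i : S, Iio (i : lam.ord.ToType) := by
        intro x _
        obtain ⟨k, hk⟩ := hcof x
        exact mem_iUnion.2 ⟨k, hk⟩
      calc lam = #(lam.ord.ToType) := (mk_ord_toType lam).symm
        _ = #(Set.univ : Set lam.ord.ToType) := mk_univ.symm
        _ ≤ #(⋃ i : S, Iio (i : lam.ord.ToType)) := mk_le_mk_of_subset this
        _ ≤ Cardinal.sum (fun i : S => #(Iio (i : lam.ord.ToType))) := mk_iUnion_le_sum_mk
    calc (2 : Cardinal.{u}) ^ lam
        ≤ 2 ^ Cardinal.sum (fun i : S => #(Iio (i : lam.ord.ToType))) :=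
          power_le_power_left two_ne_zero h1
      _ = Cardinal.prod (fun i : S => 2 ^ #(Iio (i : lam.ord.ToType))) := power_sum _ _
      _ ≤ Cardinal.prod th := prod_le_prod _ _ fun i =>
          power_le_power_left two_ne_zero (le_max_left _ _)
      _ = #(∀ i : S, (th i).out) := by
          rw [mk_pi]
          congr 1
          funext i
          exact (mk_out _).symm
  -- blocks
  have hB : ∀ i : S, #((S → (th i).out) × (th i).out) = th i := by
    intro i
    rw [mk_prod, Cardinal.lift_id, Cardinal.lift_id, mk_out, ← power_def, mk_out, hthpow i]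
    exact mul_eq_self (h0th i)
  have hem : #(Σ i : S, (S → (th i).out) × (th i).out) ≤ #(lam.ord.ToType) := by
    rw [mk_sigma, mk_ord_toType]
    calc Cardinal.sum (fun i : S => #((S → (th i).out) × (th i).out))
        ≤ Cardinal.sum (fun _ : S => lam) := sum_le_sum _ _ fun i => (hB i).trans_le (hth i).le
      _ = #S * lam := sum_const' _ _
      _ ≤ lam * lam := mul_le_mul_left hmu.le _
      _ = lam := mul_eq_self hinf
  obtain ⟨em⟩ := Cardinal.le_def _ _ |>.1 hem
  let F : (∀ i : S, (th i).out) → lam.ord.ToType → lam.ord.ToType := fun h =>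
    Function.extend em (fun p => ((pre p.2.1 (h p.1) : S) : lam.ord.ToType)) id
  have hF : ∀ h i b, F h (em ⟨i, b⟩) = ((pre b.1 (h i) : S) : lam.ord.ToType) := by
    intro h i b
    exact em.injective.extend_apply _ _ _
  -- the key lemma
  have key : ∀ g : lam.ord.ToType → lam.ord.ToType,
      #{h : ∀ i : S, (th i).out | LeStar lam (F h) g} ≤ lam := by
    intro g
    let Z : ∀ i : S, S → Set (th i).out := fun i j =>
      {x | #{b : (S → (th i).out) × (th i).out |
        g (em ⟨i, b⟩) < ((pre b.1 x : S) : lam.ord.ToType)} < th j}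
    have hZ : ∀ i j, th j < th i → #(Z i j) ≤ #S := by
      intro i j hij
      by_contra hcon
      push Not at hcon
      obtain ⟨s⟩ := Cardinal.le_def _ _ |>.1 hcon.le
      let s' : S → (th i).out := fun k => (s k : (th i).out)
      have hs' : Function.Injective s' := Subtype.val_injective.comp s.injective
      let bad : S → Set ((S → (th i).out) × (th i).out) := fun k =>
        {b | g (em ⟨i, b⟩) < ((pre b.1 (s' k) : S) : lam.ord.ToType)}
      have hbad : ∀ k, #(bad k) < th j := fun k => (s k).2
      have hcov : range (fun t : (th i).out => (s', t)) ⊆ ⋃ k, bad k := by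
        rintro _ ⟨t, rfl⟩
        obtain ⟨k, hk⟩ := hcof (g (em ⟨i, (s', t)⟩))
        refine mem_iUnion.2 ⟨k, ?_⟩
        show g (em ⟨i, (s', t)⟩) < ((pre s' (s' k) : S) : lam.ord.ToType)
        rw [pre_apply hs' k]
        exact hk
      have h1 : th i ≤ #(range (fun t : (th i).out => (s', t))) := by
        rw [mk_range_eq _ (fun a b hab => (Prod.ext_iff.1 hab).2), mk_out]
      have h2 : th i ≤ th j := by
        calc th i ≤ #(range (fun t : (th i).out => (s', t))) := h1
          _ ≤ #(⋃ k, bad k) := mk_le_mk_of_subset hcov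
          _ ≤ Cardinal.sum (fun k => #(bad k)) := mk_iUnion_le_sum_mk
          _ ≤ Cardinal.sum (fun _ : S => th j) := sum_le_sum _ _ fun k => (hbad k).le
          _ = #S * th j := sum_const' _ _
          _ ≤ th j * th j := mul_le_mul_left (hSth j) _
          _ = th j := mul_eq_self (h0th j)
      exact absurd hij (not_lt.2 h2)
    let W : ∀ i : S, S → Set (th i).out := fun i j => {x | th j < th i → x ∈ Z i j}
    have hW : ∀ i j, #(W i j) ≤ th j := by
      intro i j
      by_cases hij : th j < th i
      · have : W i j ⊆ Z i j := fun x hx => hx hij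
        exact (mk_le_mk_of_subset this).trans ((hZ i j hij).trans (hSth j))
      · exact (mk_set_le _).trans (by rw [mk_out]; exact not_lt.1 hij)
    let H : S → Set (∀ i : S, (th i).out) := fun j => {h | ∀ i, h i ∈ W i j}
    have hH : ∀ j, #(H j) ≤ th j := by
      intro j
      have h1 : #(H j) ≤ #(∀ i : S, W i j) :=
        mk_le_of_injective (f := fun h : H j => fun i => (⟨h.1 i, h.2 i⟩ : W i j)) (by
          intro a b hab
          apply Subtype.ext
          funext i
          exact Subtype.ext_iff.1 (congrFun hab i))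
      calc #(H j) ≤ #(∀ i : S, W i j) := h1
        _ = Cardinal.prod (fun i : S => #(W i j)) := mk_pi _
        _ ≤ Cardinal.prod (fun _ : S => th j) := prod_le_prod _ _ fun i => hW i j
        _ = th j ^ #S := prod_const' _ _
        _ = th j := hthpow j
    have hsub : {h : ∀ i : S, (th i).out | LeStar lam (F h) g} ⊆ ⋃ j, H j := by
      intro h hh
      obtain ⟨j, hj⟩ := hsup _ hh
      refine mem_iUnion.2 ⟨j, fun i _ => ?_⟩
      refine lt_of_le_of_lt ?_ hj
      refine mk_le_of_injective (f := fun b : {b : (S → (th i).out) × (th i).out |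
        g (em ⟨i, b⟩) < ((pre b.1 (h i) : S) : lam.ord.ToType)} =>
          (⟨em ⟨i, b.1⟩, ?_⟩ : {a : lam.ord.ToType | g a < F h a})) ?_
      · show g (em ⟨i, b.1⟩) < F h (em ⟨i, b.1⟩)
        rw [hF]
        exact b.2
      · intro a b hab
        have h1 := em.injective (Subtype.ext_iff.1 hab)
        apply Subtype.ext
        have h2 := (Sigma.mk.inj_iff.1 h1).2
        exact eq_of_heq h2
    calc #{h : ∀ i : S, (th i).out | LeStar lam (F h) g} ≤ #(⋃ j, H j) := mk_le_mk_of_subset hsub
      _ ≤ Cardinal.sum (fun j => #(H j)) := mk_iUnion_le_sum_mk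
      _ ≤ Cardinal.sum (fun _ : S => lam) := sum_le_sum _ _ fun j => (hH j).trans (hth j).le
      _ = #S * lam := sum_const' _ _
      _ ≤ lam * lam := mul_le_mul_left hmu.le _
      _ = lam := mul_eq_self hinf
  -- conclusion
  by_contra hcon
  push Not at hcon
  have hcov : (Set.univ : Set (∀ i : S, (th i).out)) ⊆
      ⋃ g : D, {h : ∀ i : S, (th i).out | LeStar lam (F h) (g : lam.ord.ToType → _)} := by
    intro h _
    obtain ⟨g, hg, hfg⟩ := hD (F h)
    exact mem_iUnion.2 ⟨⟨g, hg⟩, hfg⟩
  have h2lam : lam < 2 ^ lam := cantor lam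
  have h1 : 2 ^ lam ≤ #D * lam := by
    calc 2 ^ lam ≤ #(∀ i : S, (th i).out) := hprod
      _ = #(Set.univ : Set (∀ i : S, (th i).out)) := mk_univ.symm
      _ ≤ #(⋃ g : D, {h : ∀ i : S, (th i).out | LeStar lam (F h) (g : lam.ord.ToType → _)}) :=
          mk_le_mk_of_subset hcov
      _ ≤ Cardinal.sum (fun g : D =>
            #{h : ∀ i : S, (th i).out | LeStar lam (F h) (g : lam.ord.ToType → _)}) :=
          mk_iUnion_le_sum_mk
      _ ≤ Cardinal.sum (fun _ : D => lam) := sum_le_sum _ _ fun g => key g
      _ = #D * lam := sum_const' _ _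
  exact absurd (mul_lt_of_lt (hinf.trans h2lam.le) hcon h2lam) (not_lt.2 h1)

/-- For every strong limit singular cardinal `lam`, the dominating number of `lam` is `2 ^ lam`. -/
theorem result (lam : Cardinal.{u}) (hl : lam.IsStrongLimit) (hs : lam.IsSingular) :
    dominatingNumber lam = 2 ^ lam := by
  apply le_antisymm
  · apply csInf_le (OrderBot.bddBelow _)
    refine ⟨Set.univ, fun f => ⟨f, mem_univ f, ?_⟩, ?_⟩
    · have : {a : lam.ord.ToType | f a < f a} = ∅ := by
        ext a; simp
      unfold LeStar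
      rw [this, mk_eq_zero]
      exact pos_iff_ne_zero.2 hl.ne_zero
    · rw [mk_univ, ← power_def, mk_ord_toType, power_self_eq hs.aleph0_le]
  · apply le_csInf
    · exact ⟨_, Set.univ, fun f => ⟨f, mem_univ f, by
        have : {a : lam.ord.ToType | f a < f a} = ∅ := by
          ext a; simp
        unfold LeStar
        rw [this, mk_eq_zero]
        exact pos_iff_ne_zero.2 hl.ne_zero⟩, rfl⟩
    · rintro c ⟨D, hD, rfl⟩
      exact le_mk_of_isDominating hl hs hD

end Pool.Agent.Results.MP_ae46c1_lc.DominatingEqTwoPow
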